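import Pool.Agent.Lib.lead.CXBase

namespace Pool.Agent.Results.MP_bfbf95_lc.Hard
open Pool.Agent.Lib.CX Finset

/-- every vertex has a neighbour in `S` -/
def TDS {n : ℕ} (G : SimpleGraph (Fin n)) (S : Finset (Fin n)) : Prop := ∀ v, ∃ u ∈ S, G.Adj v u

/-- total domination number -/
noncomputable def gammaT {n : ℕ} (G : SimpleGraph (Fin n)) : ℕ := sInf {k | ∃ S, TDS G S ∧ S.card = k}

/-- degree sequence in non-increasing order -/
noncomputable def degSeq {n : ℕ} (G : SimpleGraph (Fin n)) : List ℕ :=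
  (univ.val.map fun v => (G.neighborSet v).ncard).sort (· ≥ ·)

/-- sub-total domination number -/
noncomputable def subT {n : ℕ} (G : SimpleGraph (Fin n)) : ℕ := sInf {k | n ≤ ((degSeq G).take k).sum}

theorem take_sum (N : ℕ) (l : List ℕ) (h : l.Pairwise (· ≥ ·)) (h' : ∀ x ∈ l, x ≤ N) (k : ℕ) :
    (l.take k).sum = ∑ t ∈ range N, min k (l.countP (t < ·)) := by
  induction l generalizing k with
  | nil => simp
  | cons a l ih =>
    rcases k with _ | k
    · simp
    rw [List.pairwise_cons] at h
    have : a = ∑ t ∈ range N, if t < a then 1 else 0 := by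
      rw [← card_filter, range_eq_Ico, Ico_filter_lt]; simp [h' a]
    rw [List.take_succ_cons, List.sum_cons, ih h.2 fun x hx => h' x (by simp [hx]), this, ← sum_add_distrib, ← this]
    refine sum_congr rfl fun t _ => ?_
    rw [List.countP_cons]
    by_cases e : t < a
    · simp [e]; omega
    · have : l.countP (t < ·) = 0 := List.countP_eq_zero.2 fun x hx => by have := h.1 x hx; simp; omega
      simp [e, this]

theorem deg_le {n : ℕ} (G : SimpleGraph (Fin n)) (v : Fin n) : (G.neighborSet v).ncard ≤ n := by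
  simpa using Set.ncard_le_card (G.neighborSet v)

theorem top {n : ℕ} (G : SimpleGraph (Fin n)) (k : ℕ) : ((degSeq G).take k).sum =
    ∑ t ∈ range n, min k (univ.filter fun v => t < (G.neighborSet v).ncard).card := by
  unfold degSeq
  rw [take_sum n _ (Multiset.pairwise_sort _ _) (by simp [deg_le])]
  refine sum_congr rfl fun t _ => ?_
  rw [← Multiset.coe_countP, Multiset.sort_eq, Multiset.countP_map]
  rfl

theorem sum_le_top {n : ℕ} (G : SimpleGraph (Fin n)) (S : Finset (Fin n)) :
    ∑ v ∈ S, (G.neighborSet v).ncard ≤ ((degSeq G).take S.card).sum := by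
  have : ∀ v, (G.neighborSet v).ncard = ∑ t ∈ range n, if t < (G.neighborSet v).ncard then 1 else 0 := fun v => by
    rw [← card_filter, range_eq_Ico, Ico_filter_lt]; simp [deg_le]
  rw [top, sum_congr rfl fun v _ => this v, sum_comm]
  refine sum_le_sum fun t _ => ?_
  rw [← card_filter]
  exact le_min (card_filter_le _ _) (card_le_card (filter_subset_filter _ (subset_univ _)))

theorem tds_top {n : ℕ} {G : SimpleGraph (Fin n)} {S : Finset (Fin n)} (h : TDS G S) :
    n ≤ ((degSeq G).take S.card).sum := by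
  classical
  refine le_trans ?_ (sum_le_top G S)
  have := card_biUnion_le (s := S) (t := fun v => G.neighborFinset v)
  rw [eq_univ_of_forall (s := S.biUnion _) fun v => by simpa [G.adj_comm] using h v] at this
  simpa only [SimpleGraph.neighborFinset_def, ← Set.ncard_eq_toFinset_card', card_univ, Fintype.card_fin] using this

theorem eq_iff {n : ℕ} {G : SimpleGraph (Fin n)} (h : ∀ v, ∃ u, G.Adj v u) :
    gammaT G = subT G ↔ ∃ S, TDS G S ∧ ∀ k < S.card, ((degSeq G).take k).sum < n := by
  obtain ⟨S, h1, h2⟩ : gammaT G ∈ {k | ∃ S, TDS G S ∧ S.card = k} :=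
    Nat.sInf_mem ⟨_, univ, fun v => by simpa using h v, rfl⟩
  constructor
  · intro e
    exact ⟨S, h1, fun k hk => not_le.1 (Nat.notMem_of_lt_sInf (s := {k | n ≤ ((degSeq G).take k).sum})
      (show k < subT G by omega))⟩
  · rintro ⟨T, t1, t2⟩
    have a1 : subT G ≤ S.card := Nat.sInf_le (tds_top h1)
    have a2 : gammaT G ≤ T.card := Nat.sInf_le ⟨T, t1, rfl⟩
    have a3 : n ≤ ((degSeq G).take (subT G)).sum := Nat.sInf_mem (s := {k | n ≤ ((degSeq G).take k).sum}) ⟨_, tds_top h1⟩
    have := t2 (subT G)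
    omega

theorem card_val {N : ℕ} (p : ℕ → Bool) : (univ.filter fun i : Fin N => p i).card = (List.range N).countP p := by
  rw [List.countP_eq_length_filter, ← card_map Fin.valEmbedding,
    ← List.toFinset_card_of_nodup (List.nodup_range.filter _)]
  congr 1
  ext x
  simp only [mem_map, mem_filter, mem_univ, true_and, Fin.valEmbedding_apply, List.mem_toFinset, List.mem_filter,
    List.mem_range]
  exact ⟨fun ⟨a, h, e⟩ => e ▸ ⟨a.2, h⟩, fun hx => ⟨⟨x, hx.1⟩, hx.2, rfl⟩⟩

def tp (a : Gr) (k : ℕ) : ℕ := ((List.range a.1.length).map fun t => min k ((List.range a.1.length).countP fun v =>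
  t < (List.range a.1.length).countP (a.adjB v))).sum

theorem tp_eq (a : Gr) (k : ℕ) : ((degSeq a.G).take k).sum = tp a k := by
  have : ∀ v, (a.G.neighborSet v).ncard = (List.range a.n).countP (a.adjB v) := fun v => by
    rw [← card_val, ← Set.ncard_coe_finset]
    congr 1; ext u; simp [Gr.adjB_iff]
  rw [top, tp, ← List.sum_toFinset _ List.nodup_range, List.toFinset_range]
  refine sum_congr rfl fun t _ => ?_
  simp only [this, ← card_val (fun v => t < (List.range a.n).countP (a.adjB v)), decide_eq_true_eq]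

theorem np : InNP fun a : {a : Gr // ∀ v, ∃ u, a.G.Adj v u} => gammaT a.1.G = subT a.1.G := by
  have h : PT fun p : Gr × ℕ => tp p.1 p.2 := by unfold tp; fun_prop
  refine InNP.of_cert' (fun a (c : List ℕ) => (∀ v < a.1.n, ∃ u ∈ c, a.1.adjB v u = true) ∧
      ∀ k < c.length, tp a.1 k < a.1.n) (fun a => a.1.1.length * (3 * a.1.1.length + 3) + 2) (by fun_prop) (by fun_prop) ?_ ?_
  · rintro ⟨a, ha⟩ c ⟨h1, h2⟩
    refine (eq_iff ha).2 ⟨univ.filter fun v => v.1 ∈ c, fun v => ?_, fun k hk => ?_⟩
    · obtain ⟨u, hu, h3⟩ := h1 v v.2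
      have : u < a.n := by simp only [Gr.adjB, decide_eq_true_eq] at h3; exact h3.2.1
      exact ⟨⟨u, this⟩, by simpa, (a.adjB_iff v ⟨u, this⟩).1 h3⟩
    · rw [tp_eq]
      refine h2 k (hk.trans_le (le_trans ?_ c.toFinset_card_le))
      exact card_le_card_of_injOn Fin.val (fun v hv => by simpa using hv) Fin.val_injective.injOn
  · rintro ⟨a, ha⟩ h
    obtain ⟨S, h1, h2⟩ := (eq_iff ha).1 h
    refine ⟨S.toList.map Fin.val, (size_list_le (B := 3 * a.n + 2) ?_).trans ?_, fun v hv => ?_, fun k hk => ?_⟩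
    · simp only [List.mem_map]
      rintro _ ⟨i, -, rfl⟩
      exact (size_nat_le _).trans (by omega)
    · have := card_le_univ S
      simp at this ⊢
      nlinarith
    · obtain ⟨u, hu, h3⟩ := h1 ⟨v, hv⟩
      exact ⟨u, by simpa [Fin.val_inj], (a.adjB_iff ⟨v, hv⟩ u).2 h3⟩
    · rw [← tp_eq]; exact h2 k (by simpa using hk)

def nn (m : ℕ) : ℕ := 3 * m + 1
def bb (m : ℕ) : ℕ := nn m * (2 * m + 3)
def aa (m : ℕ) : ℕ := bb m + 1 + 2 * m
def vr (φ : List (T3 ℕ)) (j : ℕ) : List ℕ := (φ.getD j (0, 0, 0)).vars.map (· % nn φ.length)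
def R (φ : List (T3 ℕ)) (u v : ℕ) : Prop := (u < bb φ.length ∧ v = bb φ.length) ∨ (u < 2 * nn φ.length ∧
  ((bb φ.length < v ∧ v < aa φ.length ∧ u % 2 = (v - bb φ.length - 1) % 2 ∧ u / 2 ∈ vr φ ((v - bb φ.length - 1) / 2)) ∨
    v / aa φ.length = u / 2 + 1))
instance (φ u v) : Decidable (R φ u v) := by unfold R; infer_instance
def red (φ : List (T3 ℕ)) : Gr := (List.replicate (aa φ.length * (nn φ.length + 1)) (),
  (List.range (aa φ.length * (nn φ.length + 1)) ×ˢ List.range (aa φ.length * (nn φ.length + 1))).filter fun e => R φ e.1 e.2)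

theorem nums (m : ℕ) : 0 < nn m ∧ 2 * nn m < bb m ∧ aa m = bb m + 1 + 2 * m ∧ nn m * (2 * m + 1) < aa m ∧
    aa m ≤ aa m * (nn m + 1) := by
  refine ⟨by unfold nn; omega, ?_, rfl, ?_, by nlinarith⟩ <;> simp only [aa, bb, nn] <;> nlinarith

theorem div_iff {m v x : ℕ} : v / aa m = x + 1 ↔ aa m * (x + 1) ≤ v ∧ v < aa m * (x + 1) + aa m := by
  have := nums m
  rw [Nat.div_eq_iff (by omega), mul_comm]; omega

theorem R_lt {φ u v} (h : R φ u v) : u < v ∧ u < bb φ.length ∧ bb φ.length ≤ v := by
  have := nums φ.length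
  rcases h with h | ⟨h, h' | h'⟩
  · omega
  · omega
  · have := (div_iff.1 h').1
    have : aa φ.length ≤ aa φ.length * (u / 2 + 1) := Nat.le_mul_of_pos_right _ (by omega)
    omega

theorem red_n (φ : List (T3 ℕ)) : (red φ).n = aa φ.length * (nn φ.length + 1) := by simp [red, Gr.n]

theorem adj (φ : List (T3 ℕ)) (u v : Fin (red φ).n) : (red φ).G.Adj u v ↔ R φ u v ∨ R φ v u := by
  have : ∀ u v : Fin (red φ).n, (u.1, v.1) ∈ (red φ).2 ↔ R φ u v := fun u v => by
    have := u.2; have := v.2
    simp only [red_n] at *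
    simp only [red, List.mem_filter, List.mem_product, List.mem_range, decide_eq_true_eq, and_iff_right_iff_imp]
    exact fun _ => ⟨by assumption, by assumption⟩
  rw [Gr.adj_iff, this, this, and_iff_right_iff_imp]
  rintro (h | h) <;> have := R_lt h <;> omega

theorem tds_of (φ : List (T3 ℕ)) (p : ℕ → Prop) (h0 : p (bb φ.length)) (h1 : ∀ x < nn φ.length, p (2 * x) ∨ p (2 * x + 1))
    (h2 : ∀ j < φ.length, ∀ b < 2, ∃ x ∈ vr φ j, p (2 * x + b)) (v : Fin (red φ).n) :
    ∃ u : Fin (red φ).n, p u ∧ (red φ).G.Adj v u := by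
  have := nums φ.length
  have hv := v.2
  have hn := red_n φ
  simp only [adj]
  by_cases a1 : v < bb φ.length
  · exact ⟨⟨bb φ.length, by omega⟩, h0, .inl (.inl ⟨a1, rfl⟩)⟩
  by_cases a2 : v = bb φ.length
  · rcases h1 0 this.1 with h | h
    · exact ⟨⟨0, by omega⟩, h, .inr (.inl ⟨by simp; omega, a2⟩)⟩
    · exact ⟨⟨1, by omega⟩, h, .inr (.inl ⟨by simp; omega, a2⟩)⟩
  by_cases a3 : v < aa φ.length
  · obtain ⟨x, hx, h⟩ := h2 ((v - bb φ.length - 1) / 2) (by omega) ((v - bb φ.length - 1) % 2) (by omega)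
    have : x < nn φ.length := by
      obtain ⟨y, -, rfl⟩ := List.mem_map.1 hx
      exact Nat.mod_lt _ this.1
    refine ⟨⟨_, by omega⟩, h, .inr (.inr ⟨by simp; omega, .inl ⟨by omega, a3, by simp, ?_⟩⟩)⟩
    convert hx; simp; omega
  · have b1 : 0 < v / aa φ.length := Nat.div_pos (by omega) (by omega)
    have b2 : v / aa φ.length < nn φ.length + 1 := Nat.div_lt_of_lt_mul (by omega)
    rcases h1 (v / aa φ.length - 1) (by omega) with h | h <;>
      exact ⟨⟨_, by omega⟩, h, .inr (.inr ⟨by simp; omega, .inr (by simp; omega)⟩)⟩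

theorem valid (φ : List (T3 ℕ)) (v : Fin (red φ).n) : ∃ u, (red φ).G.Adj v u :=
  (tds_of φ (fun _ => True) trivial (by simp) (fun j _ b _ => ⟨_, List.mem_cons_self, trivial⟩) v).imp fun _ h => h.2

theorem ncard_val {N : ℕ} (s : Set (Fin N)) (t : Finset ℕ) :
    ((∀ v ∈ s, v.1 ∈ t) → s.ncard ≤ t.card) ∧ ((∀ x ∈ t, ∃ v ∈ s, v.1 = x) → t.card ≤ s.ncard) := by
  rw [← Set.ncard_image_of_injective s Fin.val_injective, ← Set.ncard_coe_finset]
  exact ⟨fun h => Set.ncard_le_ncard (by rintro _ ⟨v, hv, rfl⟩; exact h v hv),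
    fun h => Set.ncard_le_ncard h (s.toFinite.image _)⟩

theorem sub_eq (φ : List (T3 ℕ)) (k : ℕ) : ((degSeq (red φ).G).take k).sum < (red φ).n ↔ k ≤ nn φ.length := by
  have := nums φ.length
  have hn := red_n φ
  constructor
  · intro h
    by_contra h'
    obtain ⟨S, h1, h2⟩ := exists_subset_card_eq (s := univ.filter fun v : Fin (red φ).n => decide (v.1 < 2 * nn φ.length))
      (n := nn φ.length + 1) (by
        rw [card_val fun v => v < 2 * nn φ.length]
        refine le_trans ?_ (List.Sublist.countP_le (List.range_sublist.2 (show 2 * nn φ.length ≤ _ by omega)))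
        rw [List.countP_eq_length.2 (by simp)]; simp; omega)
    have h3 := card_nsmul_le_sum S (fun v => ((red φ).G.neighborSet v).ncard) (aa φ.length) fun v hv => by
      have h4 : v.1 < 2 * nn φ.length := by simpa using h1 hv
      refine le_trans (by simp) ((ncard_val _ (Ico (aa φ.length * (v / 2 + 1)) (aa φ.length * (v / 2 + 1) + aa φ.length))).2
        fun x hx => ⟨⟨x, ?_⟩, (adj ..).2 (.inl (.inr ⟨h4, .inr (div_iff.2 (mem_Ico.1 hx))⟩)), rfl⟩)
      have := Nat.mul_le_mul_left (aa φ.length) (show v / 2 + 1 + 1 ≤ nn φ.length + 1 by omega)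
      have := (mem_Ico.1 hx).2
      nlinarith
    have h4 := sum_le_top (red φ).G S
    have h5 := ((List.take_sublist_take_left (l := degSeq (red φ).G) (show S.card ≤ k by omega)).sum_le_sum (by simp))
    rw [h2, smul_eq_mul, mul_comm] at h3
    omega
  · intro h
    have h1 := List.sum_le_card_nsmul ((degSeq (red φ).G).take k) (aa φ.length + (2 * φ.length + 1)) fun x hx => by
      obtain ⟨v, -, rfl⟩ := Multiset.mem_map.1 ((Multiset.mem_sort _).1 (List.mem_of_mem_take hx))
      by_cases a : v.1 < 2 * nn φ.length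
      · refine ((ncard_val _ (Ico (bb φ.length) (aa φ.length) ∪
          Ico (aa φ.length * (v / 2 + 1)) (aa φ.length * (v / 2 + 1) + aa φ.length))).1 fun u hu => ?_).trans
          ((card_union_le _ _).trans (by simp; omega))
        rw [mem_union, mem_Ico, mem_Ico, ← div_iff]
        rcases (adj ..).1 hu with h | h
        · unfold R at h; omega
        · have := R_lt h; omega
      · refine ((ncard_val _ (range (bb φ.length + 1))).1 fun u hu => ?_).trans (by simp; omega)
        rw [mem_range]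
        rcases (adj ..).1 hu with h | h
        · unfold R at h; omega
        · have := R_lt h; omega
    have h2 := Nat.mul_le_mul_right (aa φ.length + (2 * φ.length + 1)) ((List.length_take_le k (degSeq (red φ).G)).trans h)
    rw [smul_eq_mul] at h1
    nlinarith

theorem key (φ : List (T3 ℕ)) (hφ : ∀ C ∈ φ, C.dist ∧ ∀ x ∈ C.vars, x < 3 * φ.length) :
    SatR nae φ ↔ gammaT (red φ).G = subT (red φ).G := by
  have := nums φ.length
  have hn := red_n φ
  have e : ∀ j (h : j < φ.length), vr φ j = φ[j].vars := fun j h => by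
    rw [vr, List.getD_eq_getElem _ _ h, List.map_congr_left fun x hx =>
      Nat.mod_eq_of_lt (b := nn φ.length) (((hφ _ (List.getElem_mem h)).2 x hx).trans (Nat.lt_succ_self _)), List.map_id']
  simp only [eq_iff (valid φ), sub_eq]
  constructor
  · rintro ⟨w, hw⟩
    let T := insert (bb φ.length) ((range (nn φ.length)).image fun x => 2 * x + (w x).toNat)
    refine ⟨univ.filter fun v => v.1 ∈ T, fun v => ?_, fun k hk => ?_⟩
    · simp only [mem_filter, mem_univ, true_and]
      refine tds_of φ (· ∈ T) (by simp [T]) (fun x hx => ?_) (fun j hj b hb => ?_) v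
      · have : 2 * x + (w x).toNat ∈ T := mem_insert_of_mem (mem_image_of_mem _ (mem_range.2 hx))
        cases h : w x <;> simp_all
      · have h1 := hw _ (List.getElem_mem hj)
        have h2 := (hφ _ (List.getElem_mem hj)).2
        suffices ∃ x ∈ φ[j].vars, (w x).toNat = b by
          obtain ⟨x, hx, rfl⟩ := this
          exact ⟨x, e j hj ▸ hx, mem_insert_of_mem (mem_image_of_mem _ (mem_range.2 ((h2 x hx).trans (Nat.lt_succ_self _))))⟩
        simp only [T3.vars, List.mem_cons, List.not_mem_nil, or_false, exists_eq_or_imp, exists_eq_left]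
        revert h1
        cases w φ[j].1 <;> cases w φ[j].2.1 <;> cases w φ[j].2.2 <;> simp [nae] <;> omega
    · have h1 := card_le_card_of_injOn (s := univ.filter fun v : Fin (red φ).n => v.1 ∈ T) (t := T) Fin.val
        (fun v hv => by simpa using hv) Fin.val_injective.injOn
      have h2 : T.card ≤ _ := card_insert_le _ _
      have h3 := card_image_le (s := range (nn φ.length)) (f := fun x => 2 * x + (w x).toNat)
      rw [card_range] at h3
      omega
  · rintro ⟨S, h1, h2⟩
    have h3 : S.card ≤ nn φ.length + 1 := by by_contra h; have := h2 (nn φ.length + 1); omega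
    let T := S.image Fin.val
    have h4 : ∀ v < (red φ).n, ∃ u ∈ T, R φ v u ∨ R φ u v := fun v hv => by
      obtain ⟨u, hu, h⟩ := h1 ⟨v, hv⟩
      exact ⟨u, mem_image_of_mem _ hu, (adj ..).1 h⟩
    have h5 : bb φ.length ∈ T := by
      obtain ⟨u, hu, h | h⟩ := h4 (2 * nn φ.length) (by omega)
      · unfold R at h; convert hu; omega
      · have := R_lt h; omega
    have h6 : Set.SurjOn (· / 2) (T.erase (bb φ.length)) (range (nn φ.length)) := fun x hx => by
      have hx : x < nn φ.length := by simpa using hx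
      have a1 := Nat.mul_lt_mul_of_pos_left (show x + 1 < nn φ.length + 1 by omega) (show 0 < aa φ.length by omega)
      have a2 : aa φ.length ≤ aa φ.length * (x + 1) := Nat.le_mul_of_pos_right _ (by omega)
      obtain ⟨u, hu, h | h⟩ := h4 (aa φ.length * (x + 1)) (by omega)
      · have := R_lt h; omega
      · have a3 := R_lt h
        unfold R at h
        rw [Nat.mul_div_cancel_left _ (by omega)] at h
        exact ⟨u, by simp [hu]; omega, by simp; omega⟩
    have h7 : (T.erase (bb φ.length)).card ≤ (range (nn φ.length)).card := by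
      have : T.card ≤ _ := card_image_le
      rw [card_erase_of_mem h5, card_range]; omega
    have h8 := injOn_of_surjOn_of_card_le (· / 2) (s := T.erase (bb φ.length)) (t := (T.erase (bb φ.length)).image (· / 2))
      (fun x hx => mem_image_of_mem _ hx) (by simp [Set.SurjOn]) (h7.trans (card_le_card fun x hx => by simpa [and_comm] using h6 hx))
    refine ⟨fun x => decide (2 * x + 1 ∈ T), fun C hC => ?_⟩
    obtain ⟨j, hj, rfl⟩ := List.getElem_of_mem hC
    have h9 : ∀ b < 2, ∃ x ∈ φ[j].vars, 2 * x + b ∈ T ∧ x < nn φ.length := fun b hb => by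
      obtain ⟨u, hu, h | h⟩ := h4 (bb φ.length + 1 + 2 * j + b) (by omega)
      · have := R_lt h; omega
      · unfold R at h
        rw [Nat.div_eq_of_lt (show _ < aa φ.length by omega),
          show (bb φ.length + 1 + 2 * j + b - bb φ.length - 1) / 2 = j by omega, e j hj] at h
        rcases h with h | ⟨a, h | h⟩
        · omega
        · exact ⟨u / 2, h.2.2.2, by convert hu; omega, by omega⟩
        · omega
    obtain ⟨x, x1, x2, -⟩ := h9 1 (by omega)
    obtain ⟨y, y1, y2, y3⟩ := h9 0 (by omega)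
    have y4 : 2 * y + 1 ∉ T := fun h => by
      have := h8 (x₁ := 2 * y + 1) (by simp [h]; omega) (x₂ := 2 * y + 0) (mem_coe.2 (mem_erase.2 ⟨by omega, y2⟩)) (by simp; omega)
      omega
    simp only [T3.vars, List.mem_cons, List.not_mem_nil, or_false] at x1 y1
    clear_value T
    rcases x1 with rfl | rfl | rfl <;> rcases y1 with rfl | rfl | rfl <;> simp_all [nae]

set_option synthInstance.maxSize 2000 in
theorem result : NPComplete fun a : {a : Gr // ∀ v, ∃ u, a.G.Adj v u} => gammaT a.1.G = subT a.1.G := by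
  have h2 : PT fun p : List (T3 ℕ) × ℕ => vr p.1 p.2 := by unfold vr T3.vars nn; fun_prop
  have h : PT red := by unfold red R aa bb nn; fun_prop
  exact ⟨np, NPHard.of_nae (fun φ => ⟨_, valid φ⟩) (PT.subtype h valid) key⟩

end Pool.Agent.Results.MP_bfbf95_lc.Hard
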